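import Pool.Agent.Lib_MP_0c5939_al.AMem
import Pool.Agent.Lib_MP_0c5939_al.AltGen
import Pool.Agent.Lib_MP_0c5939_al.AltStar
import Pool.Agent.Lib_MP_0c5939_al.App
import Pool.Agent.Lib_MP_0c5939_al.AppF
import Pool.Agent.Lib_MP_0c5939_al.AppG
import Pool.Agent.Lib_MP_0c5939_al.AppLoc
import Pool.Agent.Lib_MP_0c5939_al.Bilip
import Pool.Agent.Lib_MP_0c5939_al.Br
import Pool.Agent.Lib_MP_0c5939_al.CentAlt
import Pool.Agent.Lib_MP_0c5939_al.Close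
import Pool.Agent.Lib_MP_0c5939_al.Comm
import Pool.Agent.Lib_MP_0c5939_al.Conj5
import Pool.Agent.Lib_MP_0c5939_al.Count
import Pool.Agent.Lib_MP_0c5939_al.Cut
import Pool.Agent.Lib_MP_0c5939_al.FgA
import Pool.Agent.Lib_MP_0c5939_al.FinDet
import Pool.Agent.Lib_MP_0c5939_al.FinP
import Pool.Agent.Lib_MP_0c5939_al.GFlip
import Pool.Agent.Lib_MP_0c5939_al.GMem
import Pool.Agent.Lib_MP_0c5939_al.GNonTriv
import Pool.Agent.Lib_MP_0c5939_al.GPerm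
import Pool.Agent.Lib_MP_0c5939_al.GamA
import Pool.Agent.Lib_MP_0c5939_al.Ind
import Pool.Agent.Lib_MP_0c5939_al.Ind1
import Pool.Agent.Lib_MP_0c5939_al.KFin
import Pool.Agent.Lib_MP_0c5939_al.KFlip
import Pool.Agent.Lib_MP_0c5939_al.KMono
import Pool.Agent.Lib_MP_0c5939_al.KShift
import Pool.Agent.Lib_MP_0c5939_al.KZero
import Pool.Agent.Lib_MP_0c5939_al.Lev1
import Pool.Agent.Lib_MP_0c5939_al.LevStep
import Pool.Agent.Lib_MP_0c5939_al.LimHom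
import Pool.Agent.Lib_MP_0c5939_al.Lip
import Pool.Agent.Lib_MP_0c5939_al.Loc1
import Pool.Agent.Lib_MP_0c5939_al.Loc2
import Pool.Agent.Lib_MP_0c5939_al.LocA
import Pool.Agent.Lib_MP_0c5939_al.LocBasic
import Pool.Agent.Lib_MP_0c5939_al.LocOri
import Pool.Agent.Lib_MP_0c5939_al.Main
import Pool.Agent.Lib_MP_0c5939_al.Mix
import Pool.Agent.Lib_MP_0c5939_al.NotRf
import Pool.Agent.Lib_MP_0c5939_al.Nzn
import Pool.Agent.Lib_MP_0c5939_al.OriAll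
import Pool.Agent.Lib_MP_0c5939_al.OriHom
import Pool.Agent.Lib_MP_0c5939_al.OutIso
import Pool.Agent.Lib_MP_0c5939_al.PermHalf
import Pool.Agent.Lib_MP_0c5939_al.Pre
import Pool.Agent.Lib_MP_0c5939_al.Prop1
import Pool.Agent.Lib_MP_0c5939_al.RInt
import Pool.Agent.Lib_MP_0c5939_al.RShift
import Pool.Agent.Lib_MP_0c5939_al.Rec
import Pool.Agent.Lib_MP_0c5939_al.RevSign
import Pool.Agent.Lib_MP_0c5939_al.RfCrit
import Pool.Agent.Lib_MP_0c5939_al.RfOut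
import Pool.Agent.Lib_MP_0c5939_al.Sign
import Pool.Agent.Lib_MP_0c5939_al.Sing
import Pool.Agent.Lib_MP_0c5939_al.Small1
import Pool.Agent.Lib_MP_0c5939_al.Star
import Pool.Agent.Lib_MP_0c5939_al.Supp
import Pool.Agent.Lib_MP_0c5939_al.TC1
import Pool.Agent.Lib_MP_0c5939_al.TC2
import Pool.Agent.Lib_MP_0c5939_al.TC3
import Pool.Agent.Lib_MP_0c5939_al.TChar
import Pool.Agent.Lib_MP_0c5939_al.Theta
import Pool.Agent.Lib_MP_0c5939_al.Univ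
import Pool.Agent.Lib_MP_0c5939_al.XEven
import Pool.Agent.Lib_MP_0c5939_al.XShift
import Pool.Agent.Lib_MP_0c5939_al.XSym

/-!
# MP_0c5939_al: the outer automorphism group of a direct product

There are finitely generated residually finite groups `A`, `B` with residually finite outer
automorphism groups such that `Out (A × B)` is not residually finite.
-/

namespace Pool.Agent.Results.MP_0c5939_al.OutProduct
open OutRF

theorem result : ∃ (A B : Type) (_ : Group A) (_ : Group B),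
    Group.FG A ∧ Group.FG B ∧ Group.ResiduallyFinite A ∧ Group.ResiduallyFinite B ∧
    Group.ResiduallyFinite (Out A) ∧ Group.ResiduallyFinite (Out B) ∧
    ¬ Group.ResiduallyFinite (Out (A × B)) := by
  have hKSHIFT : KSHIFT_stmt := OutRF.KSHIFT
  have hKMONO : KMONO_stmt := OutRF.KMONO
  have hLOCMONO : LOCMONO_stmt := OutRF.LOCMONO hKMONO
  have hKFIN : KFIN_stmt := OutRF.KFIN
  have hLOCBDD : LOCBDD_stmt := OutRF.LOCBDD hKFIN
  have hLOCCOMB : LOCCOMB_stmt := OutRF.LOCCOMB hLOCMONO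
  have hLOCSHIFT : LOCSHIFT_stmt := OutRF.LOCSHIFT hKSHIFT hLOCMONO hLOCBDD
  have hLOCFINITE : LOCFINITE_stmt := OutRF.LOCFINITE hLOCMONO
  have hAMEM : AMEM_stmt := OutRF.AMEM hKSHIFT hLOCMONO hLOCBDD hLOCCOMB hLOCSHIFT hLOCFINITE
  have hAPP : APP_stmt := OutRF.APP
  have hSIGN : SIGN_stmt := OutRF.SIGN hAPP
  have hAPPLOC : APPLOC_stmt := OutRF.APPLOC hAPP hKSHIFT hLOCMONO
  have hLOCBASIC : LOCBASIC_stmt := OutRF.LOCBASIC hKMONO hLOCMONO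
  have hLOCSH : LOCSH_stmt := OutRF.LOCSH hKSHIFT hLOCMONO
  have hGAMA : GAMA_stmt := OutRF.GAMA hAMEM hAPP hAPPLOC hSIGN hLOCBASIC hLOCCOMB hLOCSH
  have hJUNC : JUNC_stmt := OutRF.JUNC
  have hLEV1 : LEV1_stmt := OutRF.LEV1
  have hLEVSTEP : LEVSTEP_stmt := OutRF.LEVSTEP
  have hSING : SING_stmt := OutRF.SING hLEV1 hLEVSTEP
  have hREC : REC_stmt := OutRF.REC hLEV1 hLEVSTEP hSING hLOCMONO
  have hRBASE : RBASE_stmt := OutRF.RBASE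
  have hUNIV : UNIV_stmt := OutRF.UNIV hAPP
  have hALTGEN : ALTGEN_stmt := OutRF.ALTGEN
  have hCONJ5 : CONJ5_stmt := OutRF.CONJ5 hAPP hUNIV hALTGEN
  have hCOMM : COMM_stmt := OutRF.COMM hAPP hCONJ5
  have hPROP : PROP_stmt := OutRF.PROP hAPP hUNIV hCONJ5 hCOMM
  have hRINT : RINT_stmt := OutRF.RINT hAPP hCOMM hPROP
  have hRDIFF : RDIFF_stmt := OutRF.RDIFF hAPP hRINT hPROP
  have hRUNION : RUNION_stmt := OutRF.RUNION hAPP hRDIFF hPROP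
  have hRSHF : RSHF_stmt := OutRF.RSHF hAPP hCONJ5 hPROP
  have hRSHB : RSHB_stmt := OutRF.RSHB hAPP hCONJ5 hPROP hRBASE hRUNION hRDIFF
  have hBR : BR_stmt := OutRF.BR hRBASE hRINT hRDIFF hRUNION hRSHF hRSHB
  have hAPPG : APPG_stmt := OutRF.APPG hAPP hREC hBR hALTGEN hLOCSH
  have hAPPF : APPF_stmt := OutRF.APPF hAPP hAPPG hLOCCOMB
  have hPERMHALF : PERMHALF_stmt := OutRF.PERMHALF
  have hCUT : CUT_stmt := OutRF.CUT hAPP hLOCMONO hLOCBDD hLOCFINITE hLOCCOMB hLOCSH hLOCBASIC hJUNC hAPPF hPERMHALF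
  have hFINP : FINP_stmt := OutRF.FINP hAPP hAPPG hLOCFINITE hLOCBASIC
  have hMIX : MIX_stmt := OutRF.MIX hAPP hLOCMONO hLOCFINITE hLOCCOMB hLOCBASIC hAPPF hFINP
  have hXSYM : XSYM_stmt := OutRF.XSYM hAPP
  have hXSHIFT : XSHIFT_stmt := OutRF.XSHIFT hAPP hAPPG hXSYM hLOCSH hLOCBASIC hLOCCOMB
  have hCOUNT : COUNT_stmt := OutRF.COUNT
  have hXEVEN : XEVEN_stmt := OutRF.XEVEN hAPP hSIGN hFINP hXSYM hXSHIFT hCOUNT hLOCMONO hLOCFINITE hLOCCOMB hLOCSH hLOCBASIC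
  have hFGA : FGA_stmt := OutRF.FGA hAMEM hSIGN hGAMA hCUT hMIX hXEVEN
  have hRFA : RFA_stmt := OutRF.RFA
  have hRFCRIT : RFCRIT_stmt := OutRF.RFCRIT
  have hTC1 : TC1_stmt := OutRF.TC1
  have hTC2 : TC2_stmt := OutRF.TC2
  have hTC3 : TC3_stmt := OutRF.TC3
  have hTCHAR : TCHAR_stmt := OutRF.TCHAR hTC1 hTC2 hTC3
  have hTCPRES : TCPRES_stmt := OutRF.TCPRES hTCHAR
  have hSTAR : STAR_stmt := OutRF.STAR
  have hALTSTAR : ALTSTAR_stmt := OutRF.ALTSTAR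
  have hIND1 : IND1_stmt := OutRF.IND1 hTCPRES hSTAR hALTSTAR
  have hCENTALT : CENTALT_stmt := OutRF.CENTALT
  have hIND : IND_stmt := OutRF.IND hTCPRES hIND1 hCENTALT
  have hTHETA : THETA_stmt := OutRF.THETA hAMEM hLOCFINITE hLOCBASIC hIND
  have hNZN : NZN_stmt := OutRF.NZN
  have hFAMN : FAMN_stmt := OutRF.FAMN
  have hFINDET : FINDET_stmt := OutRF.FINDET hNZN hFAMN hAMEM
  have hLIP : LIP_stmt := OutRF.LIP hNZN hAPP hUNIV hGAMA hLOCBDD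
  have hBILIP : BILIP_stmt := OutRF.BILIP
  have hCLOSE : CLOSE_stmt := OutRF.CLOSE hNZN hLIP hBILIP
  have hORIGOOD : ORIGOOD_stmt := OutRF.ORIGOOD hCLOSE
  have hSUPP : SUPP_stmt := OutRF.SUPP hAPP hAPPLOC hSIGN hLOCSH hLOCBASIC hLOCCOMB
  have hPRE : PRE_stmt := OutRF.PRE hNZN hSUPP hLOCCOMB hLOCBASIC
  have hKZERO : KZERO_stmt := OutRF.KZERO
  have hLOCCM : LOCCM_stmt := OutRF.LOCCM hPRE hKZERO hLOCMONO
  have hLOCORI : LOCORI_stmt := OutRF.LOCORI hPRE hKZERO hLOCMONO hLOCBASIC hLOCCOMB hORIGOOD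
  have hLIMHOM : LIMHOM_stmt := OutRF.LIMHOM
  have hORIHOM : ORIHOM_stmt := OutRF.ORIHOM hNZN hFAMN hLOCBDD hLOCBASIC hLOCCOMB hAMEM hORIGOOD hLOCCM hLOCORI hLIMHOM
  have hORIALL : ORIALL_stmt := OutRF.ORIALL hLOCORI
  have hLOCA : LOCA_stmt := OutRF.LOCA hPRE hORIGOOD hLOCMONO hLOCBASIC hLOCCOMB hLOCFINITE
  have hRFOUT : RFOUT_stmt := OutRF.RFOUT hAMEM hRFCRIT hTHETA hFINDET hORIHOM hORIALL hLOCA
  have hGMEM : GMEM_stmt := OutRF.GMEM hAMEM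
  have hGISO : GISO_stmt := OutRF.GISO hAMEM hGMEM
  have hOUTISO : OUTISO_stmt := OutRF.OUTISO
  have hTYPX : TYPX_stmt := OutRF.TYPX
  have hGPERM : GPERM_stmt := OutRF.GPERM hTYPX hLOCMONO
  have hKFLIP : KFLIP_stmt := OutRF.KFLIP
  have hGFLIP : GFLIP_stmt := OutRF.GFLIP hKFLIP hLOCMONO
  have hREVSIGN : REVSIGN_stmt := OutRF.REVSIGN
  have hGSMALL : GSMALL_stmt := OutRF.GSMALL hREVSIGN hLOCFINITE hLOCBASIC
  have hGNONTRIV : GNONTRIV_stmt := OutRF.GNONTRIV hLOCBDD hCENTALT hLOCFINITE hLOCBASIC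
  have hNOTRFG : NOTRFG_stmt := OutRF.NOTRFG hGMEM hGPERM hGFLIP hGSMALL hGNONTRIV
  have hMAIN : MAIN_stmt := OutRF.MAIN hFGA hRFA hRFOUT hGISO hOUTISO hNOTRFG
  exact hMAIN

end Pool.Agent.Results.MP_0c5939_al.OutProduct
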